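import Pool.Agent.Y924.EL.Stm

/-! # The sentences are closed and use 64 variables (job EL-FV) -/

set_option autoImplicit false

namespace Pool.Agent.Y692.EL

open Pool.Agent.Y924.EL

/-! ## Free variables -/

/-- bounds for the free variables of the formulas in the holes -/
def HH : Fin 5 → Finset ℕ := ![{0, 3}, {0, 1, 3}, {0, 1, 2, 3}, {0, 3}, {0, 1, 2, 3}]

/-- bound for the free variables of a filled template -/
def fvb : Tp → Finset ℕ
  | .hole i => HH i
  | .atom φ => φ.fv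
  | .neg τ => fvb τ
  | .and τ υ => fvb τ ∪ fvb υ
  | .ex i τ => (fvb τ).erase i

theorem fv_inst {h : Fin 5 → Fm} (hh : ∀ i, (h i).fv ⊆ HH i) :
    ∀ τ : Tp, (τ.inst h).fv ⊆ fvb τ
  | .hole i => hh i
  | .atom _ => subset_rfl
  | .neg τ => fv_inst hh τ
  | .and τ υ => Finset.union_subset_union (fv_inst hh τ) (fv_inst hh υ)
  | .ex i τ => Finset.erase_subset_erase i (fv_inst hh τ)

theorem fv_powF (k : ℕ) : (powF (k + 1)).fv = {4, 5} := by
  induction k with
  | zero => decide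
  | succ k ih =>
    show (((({5, 6} : Finset ℕ) ∪ (powF (k + 1)).fv).erase 5) ∪ {6, 4, 5}).erase 6 = {4, 5}
    rw [ih]
    decide

theorem fv_JF (p : ℕ) : (JF p).fv = {0, 1, 2, 3} := by
  cases p with
  | zero => decide
  | succ k =>
    simp only [JF, Fm.fv, fv_powF]
    decide

theorem fvb_E0 (p : ℕ) : fvb (Tp.E0 p) = {0, 1, 2, 3} := by
  simp only [Tp.E0, Tp.arg3, Tp.cJ, Tp.call3, Tp.or, Tp.isZ, Tp.isO, Tp.eqv, fvb, fv_JF, Fm.fv]
  decide

theorem fvb_E1 (p : ℕ) : fvb (Tp.E1 p) = {0, 1, 2, 3} := by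
  simp only [Tp.E1, Tp.arg3, Tp.all, Tp.imp, Tp.or, Tp.cCh, Tp.cJ, fvb, fv_JF, Tp.call3]
  decide +kernel

theorem fvb_InjT (p : ℕ) : fvb (Tp.InjT p) = {3} := by
  simp only [Tp.InjT, Tp.all, Tp.imp, Tp.cJ, fvb, fv_JF, Tp.call3]
  decide +kernel

theorem fvb_Body : fvb Tp.Body = {3} := by decide +kernel

theorem fvb_Fin1 (p : ℕ) : fvb (Tp.Fin1 p) = ∅ := by
  simp only [Tp.Fin1, fvb, fvb_InjT, fvb_Body]
  decide

theorem fvb_D1 : fvb Tp.D1 ⊆ HH 0 := by decide +kernel
theorem fvb_L1 : fvb Tp.L1 ⊆ HH 1 := by decide +kernel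
theorem fvb_A0 : fvb Tp.A0 ⊆ HH 3 := by decide +kernel
theorem fvb_A1 : fvb Tp.A1 ⊆ HH 3 := by decide +kernel
theorem fvb_P1 : fvb Tp.P1 ⊆ HH 4 := by decide +kernel

theorem step_fv {T : Fin 5 → Tp} (hT : ∀ i, fvb (T i) ⊆ HH i) {h : Fin 5 → Fm}
    (hh : ∀ i, (h i).fv ⊆ HH i) : ∀ i, (stepH T h i).fv ⊆ HH i :=
  fun i => (fv_inst hh (T i)).trans (hT i)

theorem iter_fv {T : Fin 5 → Tp} (hT : ∀ i, fvb (T i) ⊆ HH i) (m : ℕ) : ∀ {h : Fin 5 → Fm},
    (∀ i, (h i).fv ⊆ HH i) → ∀ i, ((stepH T)^[m] h i).fv ⊆ HH i := by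
  induction m with
  | zero => intro h hh; exact hh
  | succ m ih =>
    intro h hh
    rw [Function.iterate_succ_apply]
    exact ih (step_fv hT hh)

theorem h0_fv (p : ℕ) : ∀ i, (h0 p i).fv ⊆ HH i := by
  have hb : ∀ i : Fin 5, ((fun _ => Fm.one 0 : Fin 5 → Fm) i).fv ⊆ HH i := by decide
  intro i
  fin_cases i
  · exact (fv_inst hb Tp.D0).trans (by decide)
  · exact (fv_inst hb Tp.L0).trans (by decide)
  · refine (fv_inst hb (Tp.E0 p)).trans ?_
    rw [fvb_E0]
    decide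
  · show ({0} : Finset ℕ) ⊆ HH 3
    decide
  · show ({0} : Finset ℕ) ⊆ HH 4
    decide

theorem TL_fv (p : ℕ) : ∀ i, fvb (TL p i) ⊆ HH i := by
  intro i
  fin_cases i
  · exact fvb_D1
  · exact fvb_L1
  · show fvb (Tp.E1 p) ⊆ HH 2
    rw [fvb_E1]
    decide
  · exact subset_rfl
  · exact subset_rfl

theorem TA0_fv : ∀ i, fvb (TA0 i) ⊆ HH i := by
  intro i
  fin_cases i
  · exact subset_rfl
  · exact subset_rfl
  · exact subset_rfl
  · exact fvb_A0
  · exact fvb_P1

theorem TA1_fv : ∀ i, fvb (TA1 i) ⊆ HH i := by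
  intro i
  fin_cases i
  · exact subset_rfl
  · exact subset_rfl
  · exact subset_rfl
  · exact fvb_A1
  · exact subset_rfl

theorem t_FV : S_FV := by
  intro p m
  have h1 := iter_fv (TL_fv p) m (h0_fv p)
  have h2 := step_fv TA0_fv h1
  have h3 := iter_fv TA1_fv m h2
  have h4 := fv_inst h3 (Tp.Fin1 p)
  rw [fvb_Fin1] at h4
  exact Finset.subset_empty.1 h4

/-! ## The number of variables -/

/-- a formula without the valuation, in the variables `x_0, ..., x_63` -/
def rbF : Fm → Bool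
  | .eq i j => decide (i < 64) && decide (j < 64)
  | .one i => decide (i < 64)
  | .add i j k => decide (i < 64) && (decide (j < 64) && decide (k < 64))
  | .mul i j k => decide (i < 64) && (decide (j < 64) && decide (k < 64))
  | .val _ => false
  | .neg φ => rbF φ
  | .and φ ψ => rbF φ && rbF ψ
  | .ex i φ => decide (i < 64) && rbF φ

theorem inRing_iff : ∀ φ : Fm, φ.InRing 64 ↔ rbF φ = true
  | .eq i j => by simp [Fm.InRing, rbF]
  | .one i => by simp [Fm.InRing, rbF]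
  | .add i j k => by simp [Fm.InRing, rbF]
  | .mul i j k => by simp [Fm.InRing, rbF]
  | .val i => by simp [Fm.InRing, rbF]
  | .neg φ => by simpa [Fm.InRing, rbF] using inRing_iff φ
  | .and φ ψ => by simp [Fm.InRing, rbF, inRing_iff φ, inRing_iff ψ]
  | .ex i φ => by simp [Fm.InRing, rbF, inRing_iff φ]

/-- the same for templates -/
def rbT : Tp → Bool
  | .hole _ => true
  | .atom φ => rbF φ
  | .neg τ => rbT τ
  | .and τ υ => rbT τ && rbT υ
  | .ex i τ => decide (i < 64) && rbT τ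

theorem rb_inst {h : Fin 5 → Fm} (hh : ∀ i, rbF (h i) = true) :
    ∀ τ : Tp, rbT τ = true → rbF (τ.inst h) = true
  | .hole i, _ => hh i
  | .atom _, h1 => h1
  | .neg τ, h1 => rb_inst hh τ h1
  | .and τ υ, h1 => by
    simp only [rbT, Bool.and_eq_true] at h1
    simp only [Tp.inst, rbF, Bool.and_eq_true]
    exact ⟨rb_inst hh τ h1.1, rb_inst hh υ h1.2⟩
  | .ex i τ, h1 => by
    simp only [rbT, Bool.and_eq_true] at h1
    simp only [Tp.inst, rbF, Bool.and_eq_true]
    exact ⟨h1.1, rb_inst hh τ h1.2⟩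

theorem rb_powF (k : ℕ) : rbF (powF k) = true := by
  induction k with
  | zero => decide
  | succ k ih =>
    simp only [powF, rbF, ih]
    decide

theorem rb_JF (p : ℕ) : rbF (JF p) = true := by
  simp only [JF, rbF, rb_powF]
  decide

theorem rb_E0 (p : ℕ) : rbT (Tp.E0 p) = true := by
  simp only [Tp.E0, Tp.arg3, Tp.cJ, Tp.call3, Tp.or, rbT, rb_JF]
  decide

theorem rb_E1 (p : ℕ) : rbT (Tp.E1 p) = true := by
  simp only [Tp.E1, Tp.arg3, Tp.all, Tp.imp, Tp.or, Tp.cCh, Tp.cJ, rbT, rb_JF, Tp.call3]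
  decide +kernel

theorem rb_Fin1 (p : ℕ) : rbT (Tp.Fin1 p) = true := by
  have h1 : rbT Tp.Body = true := by decide +kernel
  simp only [Tp.Fin1, Tp.InjT, Tp.all, Tp.imp, Tp.cJ, rbT, rb_JF, Tp.call3, h1]
  decide +kernel

theorem step_rb {T : Fin 5 → Tp} (hT : ∀ i, rbT (T i) = true) {h : Fin 5 → Fm}
    (hh : ∀ i, rbF (h i) = true) : ∀ i, rbF (stepH T h i) = true :=
  fun i => rb_inst hh (T i) (hT i)

theorem iter_rb {T : Fin 5 → Tp} (hT : ∀ i, rbT (T i) = true) (m : ℕ) : ∀ {h : Fin 5 → Fm},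
    (∀ i, rbF (h i) = true) → ∀ i, rbF ((stepH T)^[m] h i) = true := by
  induction m with
  | zero => intro h hh; exact hh
  | succ m ih =>
    intro h hh
    rw [Function.iterate_succ_apply]
    exact ih (step_rb hT hh)

theorem t_RING : S_RING := by
  intro p m
  have hb : ∀ i : Fin 5, rbF ((fun _ => Fm.one 0 : Fin 5 → Fm) i) = true := by decide
  have h0' : ∀ i, rbF (h0 p i) = true := by
    intro i
    fin_cases i
    · exact rb_inst hb Tp.D0 (by decide)
    · exact rb_inst hb Tp.L0 (by decide)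
    · exact rb_inst hb (Tp.E0 p) (rb_E0 p)
    · rfl
    · rfl
  have hL : ∀ i, rbT (TL p i) = true := by
    intro i
    fin_cases i
    · show rbT Tp.D1 = true
      decide +kernel
    · show rbT Tp.L1 = true
      decide +kernel
    · exact rb_E1 p
    · rfl
    · rfl
  have hA0 : ∀ i, rbT (TA0 i) = true := by
    intro i
    fin_cases i
    · rfl
    · rfl
    · rfl
    · show rbT Tp.A0 = true
      decide +kernel
    · show rbT Tp.P1 = true
      decide +kernel
  have hA1 : ∀ i, rbT (TA1 i) = true := by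
    intro i
    fin_cases i
    · rfl
    · rfl
    · rfl
    · show rbT Tp.A1 = true
      decide +kernel
    · rfl
  have h1 := iter_rb hL m h0'
  have h2 := step_rb hA0 h1
  have h3 := iter_rb hA1 m h2
  exact (inRing_iff _).2 (rb_inst h3 (Tp.Fin1 p) (rb_Fin1 p))

end Pool.Agent.Y692.EL
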