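import Pool.Agent.Y924.EL.Stm2

/-! # The codes of the sentences tend to infinity (job EL-GROW) -/

set_option autoImplicit false

namespace Pool.Agent.Y692.EL

open Pool.Agent.Y924.EL

/-- hole 3 occurs in the template -/
def occ3 : Tp → Bool
  | .hole i => decide (i = 3)
  | .atom _ => false
  | .neg τ => occ3 τ
  | .and τ υ => occ3 τ || occ3 υ
  | .ex _ τ => occ3 τ

theorem code_neg (φ : Fm) : φ.code < (Fm.neg φ).code := by
  have := Nat.add_le_pair 5 φ.code
  show φ.code < Nat.pair 5 φ.code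
  omega

theorem code_left (φ ψ : Fm) : φ.code < (Fm.and φ ψ).code := by
  have h1 := Nat.add_le_pair 6 (Nat.pair φ.code ψ.code)
  have h2 := Nat.add_le_pair φ.code ψ.code
  show φ.code < Nat.pair 6 (Nat.pair φ.code ψ.code)
  omega

theorem code_right (φ ψ : Fm) : ψ.code < (Fm.and φ ψ).code := by
  have h1 := Nat.add_le_pair 6 (Nat.pair φ.code ψ.code)
  have h2 := Nat.add_le_pair φ.code ψ.code
  show ψ.code < Nat.pair 6 (Nat.pair φ.code ψ.code)
  omega

theorem code_ex (i : ℕ) (φ : Fm) : φ.code < (Fm.ex i φ).code := by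
  have h1 := Nat.add_le_pair 7 (Nat.pair i φ.code)
  have h2 := Nat.add_le_pair i φ.code
  show φ.code < Nat.pair 7 (Nat.pair i φ.code)
  omega

theorem occ_le (h : Fin 5 → Fm) : ∀ τ : Tp, occ3 τ = true → (h 3).code ≤ (τ.inst h).code
  | .hole i, h1 => by
    have : i = 3 := of_decide_eq_true h1
    subst this
    exact le_rfl
  | .atom _, h1 => by simp [occ3] at h1
  | .neg τ, h1 => (occ_le h τ h1).trans (code_neg _).le
  | .and τ υ, h1 => by
    simp only [occ3, Bool.or_eq_true] at h1
    rcases h1 with h1 | h1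
    · exact (occ_le h τ h1).trans (code_left _ _).le
    · exact (occ_le h υ h1).trans (code_right _ _).le
  | .ex i τ, h1 => (occ_le h τ h1).trans (code_ex _ _).le

theorem A1_lt (h : Fin 5 → Fm) : (h 3).code < (Tp.A1.inst h).code := by
  have h1 : ∃ τ, Tp.A1 = Tp.ex 10 τ ∧ occ3 τ = true := ⟨_, rfl, by decide⟩
  obtain ⟨τ, h2, h3⟩ := h1
  rw [h2]
  exact (occ_le h τ h3).trans_lt (code_ex _ _)

theorem iter_le (h : Fin 5 → Fm) (m : ℕ) : m ≤ (((stepH TA1)^[m] h) 3).code := by
  induction m with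
  | zero => exact Nat.zero_le _
  | succ m ih =>
    rw [Function.iterate_succ_apply']
    exact lt_of_le_of_lt ih (A1_lt _)

theorem t_GROW : S_GROW := by
  intro p m
  have h1 : occ3 (Tp.Fin1 p) = true := by
    have h2 : occ3 Tp.Body = true := by decide +kernel
    show (occ3 (Tp.InjT p) || occ3 Tp.Body) = true
    rw [h2, Bool.or_true]
  exact (iter_le _ m).trans (occ_le _ _ h1)

end Pool.Agent.Y692.EL
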