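import Pool.Agent.Y924.EL.Stm

/-! # The first level, and injectivity of the pairing (jobs EL-LEV0 and EL-INJ) -/

set_option autoImplicit false

namespace Pool.Agent.Y692.EL

open Pool.Agent.Y924.EL

theorem t_LEV0 : S_LEV0 := by
  intro K J z0 z1 hJ h01
  refine ⟨⟨fun k => if k = 0 then z0 else z1, ?_, ?_⟩, ?_, ?_, ?_⟩
  · intro x
    constructor
    · rintro (rfl | rfl)
      · exact ⟨0, by omega, by simp⟩
      · exact ⟨1, by omega, by simp⟩
    · rintro ⟨k, hk, rfl⟩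
      have : k = 0 ∨ k = 1 := by omega
      rcases this with rfl | rfl
      · exact Or.inl (by simp)
      · exact Or.inr (by simp)
  · intro j k hj hk
    have h1 : j = 0 ∨ j = 1 := by omega
    have h2 : k = 0 ∨ k = 1 := by omega
    rcases h1 with rfl | rfl <;> rcases h2 with rfl | rfl <;> simp [lev0, h01, h01.symm]
  · rintro s i v v' - (⟨h1, u, h2⟩ | ⟨h1, u, h2⟩) (⟨h3, u', h4⟩ | ⟨h3, u', h4⟩)
    · exact (hJ _ _ _ _ (h2.trans h4.symm)).1
    · exact absurd (h1.symm.trans h3) h01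
    · exact absurd (h3.symm.trans h1) h01
    · exact (hJ _ _ _ _ (h2.trans h4.symm)).2
  · intro φ
    refine ⟨J (φ z0) (φ z1), ?_⟩
    rintro i (rfl | rfl)
    · exact Or.inl ⟨rfl, _, rfl⟩
    · exact Or.inr ⟨rfl, _, rfl⟩
  · intro s s' h
    have key : ∃ a b, s = J a b ∧ s' = J a b := by
      obtain ⟨v, h1, h2⟩ := h z0 (Or.inl rfl)
      obtain ⟨w, h3, h4⟩ := h z1 (Or.inr rfl)
      rcases h1 with ⟨-, u1, h1⟩ | ⟨e, -⟩
      swap
      · exact absurd e h01
      rcases h2 with ⟨-, u2, h2⟩ | ⟨e, -⟩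
      swap
      · exact absurd e h01
      rcases h3 with ⟨e, -⟩ | ⟨-, u3, h3⟩
      · exact absurd e.symm h01
      rcases h4 with ⟨e, -⟩ | ⟨-, u4, h4⟩
      · exact absurd e.symm h01
      obtain ⟨-, e1⟩ := hJ _ _ _ _ (h1.trans h3.symm)
      obtain ⟨-, e2⟩ := hJ _ _ _ _ (h2.trans h4.symm)
      exact ⟨v, w, by rw [← h1, e1], by rw [← h2, e2]⟩
    obtain ⟨a, b, h1, h2⟩ := key
    rw [h1, h2]

theorem t_INJ : S_INJ := by
  intro K _ p hp _ t ht x y x' y' h
  unfold JJ at h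
  have h1 : (x - x') ^ p = t * (y' - y) ^ p := by
    rw [sub_pow_char, sub_pow_char]
    linear_combination h
  have hy : y = y' := by
    by_contra hne
    have h2 : y' - y ≠ 0 := fun e => hne (sub_eq_zero.1 e).symm
    apply ht ((x - x') / (y' - y))
    rw [div_pow, h1]
    field_simp
  subst hy
  rw [sub_self, zero_pow hp.out.ne_zero, mul_zero] at h1
  exact ⟨sub_eq_zero.1 (pow_eq_zero_iff hp.out.ne_zero |>.1 h1), rfl⟩

theorem laurent_aux (p : ℕ) [Fact p.Prime] (u : LaurentSeries (ZMod p)) :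
    u ^ p ≠ HahnSeries.single (1 : ℤ) (1 : ZMod p) := by
  intro h
  have hp : p.Prime := Fact.out
  have h1 : (u ^ p).order = 1 := by
    rw [h]; exact HahnSeries.order_single one_ne_zero
  have h2 : (u ^ p).order = p • u.order := HahnSeries.order_pow u p
  rw [h1, nsmul_eq_mul] at h2
  have h3 : (p : ℤ) ∣ 1 := ⟨_, h2⟩
  have h4 : p ∣ 1 := by exact_mod_cast h3
  exact hp.one_lt.ne' (Nat.dvd_one.1 h4)

theorem laurent (p : ℕ) [Fact p.Prime] : ∃ t : LaurentSeries (ZMod p), ∀ u, u ^ p ≠ t :=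
  ⟨HahnSeries.single (1 : ℤ) (1 : ZMod p), laurent_aux p⟩

theorem intDegree_pow {F : Type} [Field F] (u : RatFunc F) (hu : u ≠ 0) (n : ℕ) :
    (u ^ n).intDegree = n * u.intDegree := by
  induction n with
  | zero => simp
  | succ n ih =>
    rw [pow_succ, RatFunc.intDegree_mul (pow_ne_zero n hu) hu, ih]
    push_cast
    ring

theorem ratfunc (p : ℕ) [Fact p.Prime] : ∃ t : RatFunc (ZMod p), ∀ u, u ^ p ≠ t := by
  refine ⟨RatFunc.X, fun u h => ?_⟩
  have hp : p.Prime := Fact.out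
  have hu : u ≠ 0 := by
    rintro rfl
    rw [zero_pow hp.ne_zero] at h
    exact RatFunc.X_ne_zero h.symm
  have h1 := intDegree_pow u hu p
  rw [h, RatFunc.intDegree_X] at h1
  have h3 : (p : ℤ) ∣ 1 := ⟨_, h1⟩
  have h4 : p ∣ 1 := by exact_mod_cast h3
  exact hp.one_lt.ne' (Nat.dvd_one.1 h4)

theorem power (p : ℕ) [Fact p.Prime] : Inj2 (JJ p (PowerSeries.X : PowerSeries (ZMod p))) := by
  have : CharP (LaurentSeries (ZMod p)) p :=
    charP_of_injective_ringHom (f := (HahnSeries.C : ZMod p →+* HahnSeries ℤ (ZMod p)))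
      HahnSeries.C_injective p
  have hinj : Function.Injective (HahnSeries.ofPowerSeries ℤ (ZMod p)) :=
    HahnSeries.ofPowerSeries_injective
  have key := t_INJ (LaurentSeries (ZMod p)) p (HahnSeries.single (1 : ℤ) (1 : ZMod p))
    (laurent_aux p)
  intro x y x' y' h
  have h1 := congrArg (HahnSeries.ofPowerSeries ℤ (ZMod p)) h
  unfold JJ at h1
  rw [map_add, map_add, map_mul, map_mul, map_pow, map_pow, map_pow, map_pow,
    HahnSeries.ofPowerSeries_X] at h1
  obtain ⟨h2, h3⟩ := key _ _ _ _ h1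
  exact ⟨hinj h2, hinj h3⟩

end Pool.Agent.Y692.EL
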